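import Pool.Agent.H38.Lex.Red

/-!
Existence of a stable matching for lexicographically cyclic three-sided instances is NP-hard.
-/

namespace Pool.Agent.Results.MP_28d887_lc.Hard

open Pool.Agent.H38.NP Pool.Agent.H38.Lex

theorem result : NPHardOn Valid HasStable := lex_nph.npHardOn

end Pool.Agent.Results.MP_28d887_lc.Hard
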